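import Mathlib

/-!
# Chou's property P: exact two-sided tilings, the local criterion and countable subgroups
-/

set_option autoImplicit false

namespace Pool.Agent.Results.MP_51c6d3_al.CountableSubgroups

open Set

universe u

/-- The finite set `F` lies in a finite `S` for which there is `X` with the left translates `x S`
pairwise disjoint and the right translates `S x` covering the group. -/
def HasTile {G : Type*} [Group G] (F : Set G) : Prop :=
  ∃ S : Set G, S.Finite ∧ F ⊆ S ∧ ∃ X : Set G,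
    (∀ x₁ ∈ X, ∀ x₂ ∈ X, x₁ ≠ x₂ →
      Disjoint ((fun s => x₁ * s) '' S) ((fun s => x₂ * s) '' S)) ∧
    (⋃ x ∈ X, (fun s => s * x) '' S) = univ

/-- Property `P` of the problem. -/
def HasP (G : Type*) [Group G] : Prop := ∀ F : Set G, F.Finite → HasTile F

/-- `S` tiles the subgroup `K` from both sides with one set `X`: `X ⊆ K`, the sets `x S` (`x ∈ X`)
are pairwise disjoint with union `K`, and the sets `S x` (`x ∈ X`) are pairwise disjoint with
union `K`. -/
def TilesBothSides {G : Type*} [Group G] (K : Subgroup G) (S : Set G) : Prop :=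
  ∃ X : Set G, X ⊆ K ∧
    (∀ x₁ ∈ X, ∀ x₂ ∈ X, x₁ ≠ x₂ →
      Disjoint ((fun s => x₁ * s) '' S) ((fun s => x₂ * s) '' S)) ∧
    (⋃ x ∈ X, (fun s => x * s) '' S) = K ∧
    (∀ x₁ ∈ X, ∀ x₂ ∈ X, x₁ ≠ x₂ →
      Disjoint ((fun s => s * x₁) '' S) ((fun s => s * x₂) '' S)) ∧
    (⋃ x ∈ X, (fun s => s * x) '' S) = K

section

variable {G : Type*} [Group G]

/-- pointwise form of a two-sided tiling of the elements of `H`. -/
def On (H : Set G) (S X : Set G) : Prop :=
  ∀ g ∈ H, (∃! s, s ∈ S ∧ g * s⁻¹ ∈ X) ∧ (∃! s, s ∈ S ∧ s⁻¹ * g ∈ X)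

/-- exactness: double counting. -/
theorem exact_of {S X : Set G} (hS : S.Finite)
    (hd : ∀ x₁ ∈ X, ∀ x₂ ∈ X, x₁ ≠ x₂ →
      Disjoint ((fun s => x₁ * s) '' S) ((fun s => x₂ * s) '' S))
    (hc : (⋃ x ∈ X, (fun s => s * x) '' S) = univ) : On univ S X := by
  classical
  obtain ⟨T, rfl⟩ := hS.exists_finset_coe
  -- a g = number of s with g s⁻¹ in X, b g = number of s with s⁻¹ g in X
  set a : G → ℕ := fun g => (T.filter (fun s => g * s⁻¹ ∈ X)).card with ha
  set b : G → ℕ := fun g => (T.filter (fun s => s⁻¹ * g ∈ X)).card with hb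
  have ha1 : ∀ g, a g ≤ 1 := by
    intro g
    rw [ha]
    refine Finset.card_le_one.2 ?_
    intro s hs t ht
    rw [Finset.mem_filter] at hs ht
    by_contra hne
    have hx : g * s⁻¹ ≠ g * t⁻¹ := by
      intro h
      exact hne (inv_injective (mul_left_cancel h))
    have := hd _ hs.2 _ ht.2 hx
    rw [Set.disjoint_left] at this
    exact this ⟨s, hs.1, rfl⟩ ⟨t, ht.1, by simp⟩
  have hb1 : ∀ g, 1 ≤ b g := by
    intro g
    have hg : g ∈ (⋃ x ∈ X, (fun s => s * x) '' (T : Set G)) := by rw [hc]; trivial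
    simp only [mem_iUnion, mem_image] at hg
    obtain ⟨x, hx, s, hs, rfl⟩ := hg
    rw [hb]
    refine Finset.card_pos.2 ⟨s, ?_⟩
    rw [Finset.mem_filter]
    exact ⟨hs, by simpa using hx⟩
  have hsum : ∀ g, ∑ s ∈ T, b (g * s⁻¹) = ∑ t ∈ T, a (t⁻¹ * g) := by
    intro g
    simp only [ha, hb, Finset.card_filter]
    rw [Finset.sum_comm]
    refine Finset.sum_congr rfl fun t _ => Finset.sum_congr rfl fun s _ => ?_
    simp only [mul_assoc]
  have hall : ∀ g, (∀ s ∈ T, b (g * s⁻¹) = 1) ∧ (∀ t ∈ T, a (t⁻¹ * g) = 1) := by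
    intro g
    have h1 : T.card ≤ ∑ s ∈ T, b (g * s⁻¹) := by
      calc T.card = ∑ s ∈ T, 1 := by simp
        _ ≤ _ := Finset.sum_le_sum fun s _ => hb1 _
    have h2 : ∑ t ∈ T, a (t⁻¹ * g) ≤ T.card := by
      calc ∑ t ∈ T, a (t⁻¹ * g) ≤ ∑ t ∈ T, 1 := Finset.sum_le_sum fun s _ => ha1 _
        _ = _ := by simp
    have h3 := hsum g
    constructor
    · intro s hs
      by_contra hne
      have hlt : ∑ s ∈ T, 1 < ∑ s ∈ T, b (g * s⁻¹) :=
        Finset.sum_lt_sum (fun s _ => hb1 _) ⟨s, hs, lt_of_le_of_ne (hb1 _) (Ne.symm hne)⟩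
      simp only [Finset.sum_const, smul_eq_mul, mul_one] at hlt
      omega
    · intro t ht
      by_contra hne
      have hlt : ∑ t ∈ T, a (t⁻¹ * g) < ∑ t ∈ T, 1 :=
        Finset.sum_lt_sum (fun s _ => ha1 _) ⟨t, ht, lt_of_le_of_ne (ha1 _) hne⟩
      simp only [Finset.sum_const, smul_eq_mul, mul_one] at hlt
      omega
  obtain ⟨s₀, hs₀⟩ : ∃ s, s ∈ T := by
    have := hb1 1
    obtain ⟨s, hs⟩ := Finset.card_pos.1 (show 0 < (T.filter (fun s => s⁻¹ * (1 : G) ∈ X)).card from this)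
    exact ⟨s, (Finset.mem_filter.1 hs).1⟩
  have hae : ∀ g, a g = 1 := fun g => by simpa using (hall (s₀ * g)).2 s₀ hs₀
  have hbe : ∀ g, b g = 1 := fun g => by simpa using (hall (g * s₀)).1 s₀ hs₀
  intro g _
  constructor
  · obtain ⟨s, hs⟩ := Finset.card_eq_one.1 (hae g)
    refine ⟨s, ?_, ?_⟩
    · have : s ∈ T.filter (fun s => g * s⁻¹ ∈ X) := by rw [hs]; simp
      exact Finset.mem_filter.1 this
    · intro t ht
      have : t ∈ T.filter (fun s => g * s⁻¹ ∈ X) := Finset.mem_filter.2 ht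
      rw [hs] at this
      simpa using this
  · obtain ⟨s, hs⟩ := Finset.card_eq_one.1 (hbe g)
    refine ⟨s, ?_, ?_⟩
    · have : s ∈ T.filter (fun s => s⁻¹ * g ∈ X) := by rw [hs]; simp
      exact Finset.mem_filter.1 this
    · intro t ht
      have : t ∈ T.filter (fun s => s⁻¹ * g ∈ X) := Finset.mem_filter.2 ht
      rw [hs] at this
      simpa using this

/-- from the pointwise form on a subgroup containing `S` to the tiling. -/
theorem tiles_of_on {K : Subgroup G} {S X : Set G} (hSK : S ⊆ K) (h : On (K : Set G) S X) :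
    TilesBothSides K S := by
  refine ⟨X ∩ K, fun x hx => hx.2, ?_, ?_, ?_, ?_⟩
  · rintro x₁ ⟨h₁, k₁⟩ x₂ ⟨h₂, k₂⟩ hne
    rw [Set.disjoint_left]
    rintro g ⟨s, hs, rfl⟩ ⟨t, ht, hst⟩
    simp only at hst
    have hg : x₁ * s ∈ (K : Set G) := K.mul_mem k₁ (hSK hs)
    obtain ⟨u, -, hu⟩ := (h _ hg).1
    have e1 := hu s ⟨hs, by simpa using h₁⟩
    have e2 := hu t ⟨ht, by rw [← hst]; simpa using h₂⟩
    rw [e1, e2] at hst
    exact hne (mul_right_cancel hst).symm
  · ext g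
    simp only [mem_iUnion, mem_image, SetLike.mem_coe]
    constructor
    · rintro ⟨x, ⟨-, hx⟩, s, hs, rfl⟩
      exact K.mul_mem hx (hSK hs)
    · intro hg
      obtain ⟨s, ⟨hs, hx⟩, -⟩ := (h g hg).1
      exact ⟨g * s⁻¹, ⟨hx, K.mul_mem hg (K.inv_mem (hSK hs))⟩, s, hs, by simp⟩
  · rintro x₁ ⟨h₁, k₁⟩ x₂ ⟨h₂, k₂⟩ hne
    rw [Set.disjoint_left]
    rintro g ⟨s, hs, rfl⟩ ⟨t, ht, hst⟩
    simp only at hst
    have hg : s * x₁ ∈ (K : Set G) := K.mul_mem (hSK hs) k₁
    obtain ⟨u, -, hu⟩ := (h _ hg).2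
    have e1 := hu s ⟨hs, by simpa using h₁⟩
    have e2 := hu t ⟨ht, by rw [← hst]; simpa using h₂⟩
    rw [e1, e2] at hst
    exact hne (mul_left_cancel hst).symm
  · ext g
    simp only [mem_iUnion, mem_image, SetLike.mem_coe]
    constructor
    · rintro ⟨x, ⟨-, hx⟩, s, hs, rfl⟩
      exact K.mul_mem (hSK hs) hx
    · intro hg
      obtain ⟨s, ⟨hs, hx⟩, -⟩ := (h g hg).2
      exact ⟨s⁻¹ * g, ⟨hx, K.mul_mem (K.inv_mem (hSK hs)) hg⟩, s, hs, by simp⟩

/-- and back. -/
theorem on_of_tiles {K : Subgroup G} {S : Set G} (h : TilesBothSides K S) :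
    ∃ X : Set G, On (K : Set G) S X := by
  obtain ⟨X, hX, hd, hc, hd', hc'⟩ := h
  refine ⟨X, fun g hg => ⟨?_, ?_⟩⟩
  · have hg' : g ∈ (⋃ x ∈ X, (fun s => x * s) '' S) := by rw [hc]; exact hg
    simp only [mem_iUnion, mem_image] at hg'
    obtain ⟨x, hx, s, hs, rfl⟩ := hg'
    refine ⟨s, ⟨hs, by simpa using hx⟩, ?_⟩
    rintro t ⟨ht, htx⟩
    by_contra hne
    have hxx : x ≠ x * s * t⁻¹ := by
      intro h
      apply hne
      have h2 : x * t = x * s := by
        calc x * t = x * s * t⁻¹ * t := by rw [← h]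
          _ = x * s := by simp
      exact mul_left_cancel h2
    have := hd x hx _ htx hxx
    rw [Set.disjoint_left] at this
    exact this ⟨s, hs, rfl⟩ ⟨t, ht, by simp⟩
  · have hg' : g ∈ (⋃ x ∈ X, (fun s => s * x) '' S) := by rw [hc']; exact hg
    simp only [mem_iUnion, mem_image] at hg'
    obtain ⟨x, hx, s, hs, rfl⟩ := hg'
    refine ⟨s, ⟨hs, by simpa using hx⟩, ?_⟩
    rintro t ⟨ht, htx⟩
    by_contra hne
    have hxx : x ≠ t⁻¹ * (s * x) := by
      intro h
      apply hne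
      have h2 : t * x = s * x := by
        calc t * x = t * (t⁻¹ * (s * x)) := by rw [← h]
          _ = s * x := by simp
      exact mul_right_cancel h2
    have := hd' x hx _ htx hxx
    rw [Set.disjoint_left] at this
    exact this ⟨s, hs, rfl⟩ ⟨t, ht, by simp⟩

/-- compactness. -/
theorem compact_on {S : Set G} (hS : S.Finite)
    (h : ∀ K : Subgroup G, K.FG → S ⊆ K → ∃ X : Set G, On (K : Set G) S X) :
    ∃ X : Set G, On univ S X := by
  classical
  -- the directed set of the finite subsets of G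
  have hk : ∀ E : Finset G, ∃ X : Set G, On ((E : Set G)) S X := by
    intro E
    obtain ⟨X, hX⟩ := h (Subgroup.closure ((E : Set G) ∪ S))
      ((Subgroup.fg_iff _).2 ⟨_, rfl, E.finite_toSet.union hS⟩)
      (fun s hs => Subgroup.subset_closure (Or.inr hs))
    exact ⟨X, fun g hg => hX g (Subgroup.subset_closure (Or.inl hg))⟩
  choose X hX using hk
  obtain ⟨U, hU⟩ := Ultrafilter.exists_le (Filter.atTop : Filter (Finset G))
  have hmem : ∀ g : G, ∀ᶠ E in (U : Filter (Finset G)), g ∈ E := by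
    intro g
    apply hU
    filter_upwards [Filter.eventually_ge_atTop ({g} : Finset G)] with E hE
    exact hE (by simp)
  refine ⟨{g | ∀ᶠ E in (U : Filter (Finset G)), g ∈ X E}, fun g _ => ⟨?_, ?_⟩⟩
  · have h1 : ∀ᶠ E in (U : Filter (Finset G)), ∃ s ∈ S, g * s⁻¹ ∈ X E := by
      filter_upwards [hmem g] with E hE
      obtain ⟨s, hs, -⟩ := (hX E g hE).1
      exact ⟨s, hs⟩
    have h2 : ∃ s ∈ S, ∀ᶠ E in (U : Filter (Finset G)), g * s⁻¹ ∈ X E := by
      have h3 : (⋃ s ∈ S, {E | g * s⁻¹ ∈ X E}) ∈ U := by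
        filter_upwards [h1] with E hE
        obtain ⟨s, hs, hx⟩ := hE
        exact mem_iUnion₂.2 ⟨s, hs, hx⟩
      exact (Ultrafilter.finite_biUnion_mem_iff hS).1 h3
    obtain ⟨s, hs, hx⟩ := h2
    refine ⟨s, ⟨hs, hx⟩, ?_⟩
    rintro t ⟨ht, htx⟩
    obtain ⟨E, ⟨hE, hE2⟩, hE3⟩ := ((hx.and htx).and (hmem g)).exists
    exact (hX E g hE3).1.unique ⟨ht, hE2⟩ ⟨hs, hE⟩
  · have h1 : ∀ᶠ E in (U : Filter (Finset G)), ∃ s ∈ S, s⁻¹ * g ∈ X E := by
      filter_upwards [hmem g] with E hE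
      obtain ⟨s, hs, -⟩ := (hX E g hE).2
      exact ⟨s, hs⟩
    have h2 : ∃ s ∈ S, ∀ᶠ E in (U : Filter (Finset G)), s⁻¹ * g ∈ X E := by
      have h3 : (⋃ s ∈ S, {E | s⁻¹ * g ∈ X E}) ∈ U := by
        filter_upwards [h1] with E hE
        obtain ⟨s, hs, hx⟩ := hE
        exact mem_iUnion₂.2 ⟨s, hs, hx⟩
      exact (Ultrafilter.finite_biUnion_mem_iff hS).1 h3
    obtain ⟨s, hs, hx⟩ := h2
    refine ⟨s, ⟨hs, hx⟩, ?_⟩
    rintro t ⟨ht, htx⟩
    obtain ⟨E, ⟨hE, hE2⟩, hE3⟩ := ((hx.and htx).and (hmem g)).exists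
    exact (hX E g hE3).2.unique ⟨ht, hE2⟩ ⟨hs, hE⟩

/-- property `P` in a subgroup, read in the whole group. -/
theorem on_of_hasTile {H : Subgroup G} {F : Set G} (hF : F ⊆ H)
    (h : HasTile ((fun x : H => (x : G)) ⁻¹' F)) :
    ∃ S : Set G, S.Finite ∧ F ⊆ S ∧ S ⊆ H ∧ ∃ X : Set G, On (H : Set G) S X := by
  obtain ⟨S, hS, hFS, X, hd, hc⟩ := h
  have hex := exact_of hS hd hc
  refine ⟨(fun x : H => (x : G)) '' S, hS.image _, ?_, ?_, (fun x : H => (x : G)) '' X, ?_⟩
  · intro f hf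
    exact ⟨⟨f, hF hf⟩, hFS hf, rfl⟩
  · rintro _ ⟨s, -, rfl⟩
    exact s.2
  · intro g hg
    obtain ⟨h1, h2⟩ := hex ⟨g, hg⟩ trivial
    constructor
    · obtain ⟨s, ⟨hs, hx⟩, hu⟩ := h1
      refine ⟨s, ⟨⟨s, hs, rfl⟩, ⟨_, hx, by simp⟩⟩, ?_⟩
      rintro _ ⟨⟨t, ht, rfl⟩, ⟨x, hx', hxt⟩⟩
      have : (⟨g, hg⟩ : H) * t⁻¹ = x := by
        apply Subtype.ext
        simpa using hxt.symm
      rw [hu t ⟨ht, by rw [this]; exact hx'⟩]
    · obtain ⟨s, ⟨hs, hx⟩, hu⟩ := h2
      refine ⟨s, ⟨⟨s, hs, rfl⟩, ⟨_, hx, by simp⟩⟩, ?_⟩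
      rintro _ ⟨⟨t, ht, rfl⟩, ⟨x, hx', hxt⟩⟩
      have : t⁻¹ * (⟨g, hg⟩ : H) = x := by
        apply Subtype.ext
        simpa using hxt.symm
      rw [hu t ⟨ht, by rw [this]; exact hx'⟩]

/-- a tile of the whole group in the pointwise form gives `HasTile`. -/
theorem hasTile_of_on {F S X : Set G} (hS : S.Finite) (hFS : F ⊆ S) (h : On univ S X) :
    HasTile F := by
  obtain ⟨Y, -, hd, -, -, hc⟩ :=
    tiles_of_on (K := ⊤) (S := S) (X := X) (by simp) (by simpa using h)
  exact ⟨S, hS, hFS, Y, hd, by simpa using hc⟩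

/-- the subgroup generated by a countable set is countable. -/
theorem cl_countable {A : Set G} (hA : A.Countable) :
    ((Subgroup.closure A : Subgroup G) : Set G).Countable := by
  have := hA.to_subtype
  have h1 : (FreeGroup.lift (fun a : A => (a : G))).range = Subgroup.closure A := by
    rw [FreeGroup.range_lift_eq_closure]
    simp
  have h2 : Countable (FreeGroup A) := Quot.mk_surjective.countable
  rw [← h1, MonoidHom.coe_range]
  exact Set.countable_range _

/-- closing off. -/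
theorem closing (K : Set G → Subgroup G) (hK : ∀ S : Set G, S.Finite → ((K S : Subgroup G) : Set G).Countable)
    {F : Set G} (hF : F.Finite) :
    ∃ H : Subgroup G, (H : Set G).Countable ∧ F ⊆ H ∧ ∀ S : Set G, S.Finite → S ⊆ H → K S ≤ H := by
  classical
  let step : Subgroup G → Subgroup G := fun L =>
    L ⊔ ⨆ S : {S : Set G // S.Finite ∧ S ⊆ L}, K S.1
  have hcl : ∀ A : Set G, A.Countable → ((Subgroup.closure A : Subgroup G) : Set G).Countable :=
    fun A hA => cl_countable hA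
  have hstep : ∀ L : Subgroup G, (L : Set G).Countable → ((step L : Subgroup G) : Set G).Countable := by
    intro L hL
    have hcnt : {S : Set G | S.Finite ∧ S ⊆ L}.Countable := Set.countable_ofPred_finite_subset hL
    have : Countable {S : Set G // S.Finite ∧ S ⊆ L} := hcnt.to_subtype
    have h1 : ((L : Set G) ∪ ⋃ S : {S : Set G // S.Finite ∧ S ⊆ L}, ((K S.1 : Subgroup G) : Set G)).Countable :=
      hL.union (Set.countable_iUnion fun S => hK S.1 S.2.1)
    refine (hcl _ h1).mono ?_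
    show ((step L : Subgroup G) : Set G) ⊆ _
    have : step L ≤ Subgroup.closure ((L : Set G) ∪
        ⋃ S : {S : Set G // S.Finite ∧ S ⊆ L}, ((K S.1 : Subgroup G) : Set G)) := by
      refine sup_le (fun x hx => Subgroup.subset_closure (Or.inl hx)) (iSup_le fun S x hx =>
        Subgroup.subset_closure (Or.inr (mem_iUnion.2 ⟨S, hx⟩)))
    exact this
  let L : ℕ → Subgroup G := fun n => step^[n] (Subgroup.closure F)
  have hLs : ∀ n, L (n + 1) = step (L n) := fun n => Function.iterate_succ_apply' _ _ _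
  have hLc : ∀ n, ((L n : Subgroup G) : Set G).Countable := by
    intro n
    induction n with
    | zero => exact hcl F hF.countable
    | succ n ih => rw [hLs]; exact hstep _ ih
  have hLm : Monotone L := monotone_nat_of_le_succ fun n => by rw [hLs]; exact le_sup_left
  have hmem : ∀ x, x ∈ (⨆ n, L n) ↔ ∃ n, x ∈ L n := fun x =>
    Subgroup.mem_iSup_of_directed hLm.directed_le
  refine ⟨⨆ n, L n, ?_, ?_, ?_⟩
  · refine (Set.countable_iUnion hLc).mono ?_
    intro x hx
    exact mem_iUnion.2 ((hmem x).1 hx)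
  · intro f hf
    exact (hmem f).2 ⟨0, Subgroup.subset_closure hf⟩
  · intro S hS hSL
    have : ∃ n, S ⊆ L n := by
      choose n hn using fun s : S => (hmem s.1).1 (hSL s.2)
      have := hS.fintype
      refine ⟨Finset.univ.sup n, fun s hs => ?_⟩
      exact hLm (Finset.le_sup (Finset.mem_univ (⟨s, hs⟩ : S))) (hn ⟨s, hs⟩)
    obtain ⟨n, hn⟩ := this
    have h1 : K S ≤ L (n + 1) := by
      rw [hLs]
      exact le_trans (le_iSup (fun S : {S : Set G // S.Finite ∧ S ⊆ L n} => K S.1) ⟨S, hS, hn⟩) le_sup_right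
    exact h1.trans (le_iSup L (n + 1))

/-- the local criterion. -/
theorem hasP_iff_local : HasP G ↔ ∀ F : Set G, F.Finite → ∃ S : Set G, S.Finite ∧ F ⊆ S ∧
    ∀ K : Subgroup G, K.FG → S ⊆ K → TilesBothSides K S := by
  constructor
  · intro h F hF
    obtain ⟨S, hS, hFS, X, hd, hc⟩ := h F hF
    refine ⟨S, hS, hFS, fun K _ hSK => tiles_of_on hSK (X := X) fun g _ => exact_of hS hd hc g trivial⟩
  · intro h F hF
    obtain ⟨S, hS, hFS, hK⟩ := h F hF
    obtain ⟨X, hX⟩ := compact_on hS fun K hKf hSK => on_of_tiles (hK K hKf hSK)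
    exact hasTile_of_on hS hFS hX

/-- countable subgroups. -/
theorem hasP_of_countable (h : ∀ H : Subgroup G, Countable H → HasP H) : HasP G := by
  classical
  intro F hF
  by_contra hno
  have hbad : ∀ S : Set G, S.Finite → F ⊆ S → ∃ K : Subgroup G, K.FG ∧ S ⊆ K ∧
      ¬ ∃ X : Set G, On (K : Set G) S X := by
    intro S hS hFS
    by_contra hcon
    push Not at hcon
    obtain ⟨X, hX⟩ := compact_on hS fun K hK hSK => hcon K hK hSK
    exact hno (hasTile_of_on hS hFS hX)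
  let K : Set G → Subgroup G := fun S =>
    if hS : S.Finite ∧ F ⊆ S then (hbad S hS.1 hS.2).choose else ⊥
  have hKc : ∀ S : Set G, S.Finite → ((K S : Subgroup G) : Set G).Countable := by
    intro S hS
    by_cases hFS : F ⊆ S
    · have h1 : K S = (hbad S hS hFS).choose := dif_pos ⟨hS, hFS⟩
      rw [h1]
      obtain ⟨A, hA, hAf⟩ := (Subgroup.fg_iff _).1 (hbad S hS hFS).choose_spec.1
      rw [← hA]
      exact cl_countable hAf.countable
    · have h1 : K S = ⊥ := dif_neg fun h => hFS h.2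
      rw [h1]
      simp
  obtain ⟨H, hHc, hFH, hH⟩ := closing K hKc hF
  have hHP : HasP H := h H (Set.countable_coe_iff.2 hHc)
  obtain ⟨S, hS, hFS, hSH, X, hX⟩ := on_of_hasTile hFH
    (hHP _ (hF.preimage Subtype.val_injective.injOn))
  have h1 : K S = (hbad S hS hFS).choose := dif_pos ⟨hS, hFS⟩
  have h2 := (hbad S hS hFS).choose_spec.2.2
  apply h2
  refine ⟨X, fun g hg => hX g ?_⟩
  have h3 := hH S hS hSH
  rw [h1] at h3
  exact h3 hg

end

/-- transport along an isomorphism. -/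
theorem hasP_congr {G H : Type*} [Group G] [Group H] (e : G ≃* H) (h : HasP G) : HasP H := by
  intro F hF
  obtain ⟨S, hS, hFS, X, hd, hc⟩ := h (e ⁻¹' F) (hF.preimage e.injective.injOn)
  refine ⟨e '' S, hS.image _, ?_, e '' X, ?_, ?_⟩
  · intro f hf
    exact ⟨e.symm f, hFS (by simpa using hf), by simp⟩
  · rintro _ ⟨x₁, h₁, rfl⟩ _ ⟨x₂, h₂, rfl⟩ hne
    have := hd x₁ h₁ x₂ h₂ fun h => hne (by rw [h])
    rw [Set.disjoint_left] at this ⊢
    rintro _ ⟨_, ⟨s, hs, rfl⟩, rfl⟩ ⟨_, ⟨t, ht, rfl⟩, hst⟩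
    refine this ⟨s, hs, rfl⟩ ⟨t, ht, ?_⟩
    apply e.injective
    simpa using hst
  · ext g
    simp only [mem_iUnion, mem_image, mem_univ, iff_true]
    have hg : e.symm g ∈ (⋃ x ∈ X, (fun s => s * x) '' S) := by rw [hc]; trivial
    simp only [mem_iUnion, mem_image] at hg
    obtain ⟨x, hx, s, hs, hsx⟩ := hg
    refine ⟨e x, ⟨x, hx, rfl⟩, e s, ⟨s, hs, rfl⟩, ?_⟩
    rw [← map_mul, hsx]
    simp

/-- (1) A group `G` has property `P` if and only if every finite set `F` lies in a finite set `S` which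
tiles every subgroup of `G` containing `S` (`G` itself among them) from both sides with one set `X`,
and if and only if every finite `F` lies in a finite `S` which does so for the finitely generated
subgroups containing it. (2) A group has property `P` if all its countable subgroups have it, so all
groups have property `P` if and only if all countable groups have it. -/
theorem result :
    (∀ (G : Type u) [Group G],
      (HasP G ↔ ∀ F : Set G, F.Finite → ∃ S : Set G, S.Finite ∧ F ⊆ S ∧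
        ∀ K : Subgroup G, S ⊆ K → TilesBothSides K S) ∧
      (HasP G ↔ ∀ F : Set G, F.Finite → ∃ S : Set G, S.Finite ∧ F ⊆ S ∧
        ∀ K : Subgroup G, K.FG → S ⊆ K → TilesBothSides K S) ∧
      ((∀ H : Subgroup G, Countable H → HasP H) → HasP G)) ∧
    ((∀ (G : Type u) [Group G], HasP G) ↔ ∀ (G : Type) [Group G], Countable G → HasP G) := by
  refine ⟨fun G _ => ⟨⟨?_, ?_⟩, hasP_iff_local, hasP_of_countable⟩, ⟨?_, ?_⟩⟩
  · intro h F hF
    obtain ⟨S, hS, hFS, X, hd, hc⟩ := h F hF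
    exact ⟨S, hS, hFS, fun K hSK => tiles_of_on hSK (X := X) fun g _ => exact_of hS hd hc g trivial⟩
  · intro h F hF
    obtain ⟨S, hS, hFS, hK⟩ := h F hF
    obtain ⟨X, -, hd, -, -, hc⟩ := hK ⊤ (by simp)
    exact ⟨S, hS, hFS, X, hd, by simpa using hc⟩
  · intro h G _ hG
    exact hasP_congr (MulEquiv.ulift : ULift.{u} G ≃* G) (h (ULift.{u} G))
  · intro h G _
    refine hasP_of_countable fun H hH => ?_
    exact hasP_congr (Shrink.mulEquiv : Shrink.{0} H ≃* H)
      (h (Shrink.{0} H) (Countable.of_equiv _ (equivShrink.{0} H)))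

end Pool.Agent.Results.MP_51c6d3_al.CountableSubgroups
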