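import Mathlib
import Pool.Agent.H79.HG.Fin

/-!
# Chou's property P: acylindrically hyperbolic groups and their extensions
-/

set_option autoImplicit false

namespace Pool.Agent.Results.MP_51c6d3_al.HyperbolicQuotients

open Set

/-- The finite set `F` lies in a finite `S` for which there is `X` with the left translates `x S`
pairwise disjoint and the right translates `S x` covering the group. -/
def HasTile {G : Type*} [Group G] (F : Set G) : Prop :=
  ∃ S : Set G, S.Finite ∧ F ⊆ S ∧ ∃ X : Set G,
    (∀ x₁ ∈ X, ∀ x₂ ∈ X, x₁ ≠ x₂ →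
      Disjoint ((fun s => x₁ * s) '' S) ((fun s => x₂ * s) '' S)) ∧
    (⋃ x ∈ X, (fun s => s * x) '' S) = univ

/-- Property `P` of the problem. -/
def HasP (G : Type*) [Group G] : Prop := ∀ F : Set G, F.Finite → HasTile F

/-- The space is (Gromov) hyperbolic: four point condition. -/
def Hyperbolic (Y : Type*) [PseudoMetricSpace Y] : Prop :=
  ∃ δ : ℝ, ∀ x y z w : Y,
    dist x z + dist y w ≤ max (dist x y + dist z w) (dist x w + dist y z) + δ

/-- `g` acts as a loxodromic element: the orbit of `y` under its powers grows linearly. -/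
def Loxodromic {Γ Y : Type*} [Group Γ] [PseudoMetricSpace Y] [MulAction Γ Y] (y : Y) (g : Γ) :
    Prop :=
  ∃ c : ℝ, 0 < c ∧ ∀ n : ℕ, c * n ≤ dist y (g ^ n • y)

/-- `g` is WPD (weakly properly discontinuous): for every `ε` there is `N` such that only finitely
many `γ` move both `y` and `g ^ N y` by at most `ε`. -/
def WPD {Γ Y : Type*} [Group Γ] [PseudoMetricSpace Y] [MulAction Γ Y] (y : Y) (g : Γ) : Prop :=
  ∀ ε : ℝ, ∃ N : ℕ, {γ : Γ | dist y (γ • y) ≤ ε ∧ dist (g ^ N • y) (γ • g ^ N • y) ≤ ε}.Finite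

/-- `Γ` has a cyclic subgroup of finite index. -/
def VirtuallyCyclic (Γ : Type*) [Group Γ] : Prop :=
  ∃ C : Subgroup Γ, IsCyclic C ∧ C.FiniteIndex

/-- Let `Γ` be a group, not virtually cyclic, acting by isometries on a hyperbolic space `Y`, let
`π : G → Γ` be a surjective homomorphism, and suppose that some `h` in `G` commutes with the kernel
of `π` and that `π h` is a loxodromic WPD element. Then `G` has property `P`. -/
theorem result {G Γ Y : Type*} [Group G] [Group Γ] [PseudoMetricSpace Y] [MulAction Γ Y]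
    [IsIsometricSMul Γ Y] (hY : Hyperbolic Y) (hv : ¬ VirtuallyCyclic Γ) (π : G →* Γ)
    (hπ : Function.Surjective π) (h : G) (hc : ∀ n ∈ π.ker, n * h = h * n) (y : Y)
    (hlox : Loxodromic y (π h)) (hwpd : WPD y (π h)) : HasP G := by
  obtain ⟨δ, hδ⟩ := hY
  obtain ⟨c, hc0, hl⟩ := hlox
  intro F hF
  exact Pool.Agent.H79.HG.main π hπ h hc δ hδ y c hc0 hl hwpd
    (fun hi => hv ⟨Subgroup.zpowers (π h), inferInstance, hi⟩) F hF

end Pool.Agent.Results.MP_51c6d3_al.HyperbolicQuotients
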