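import Mathlib
import Pool.Agent.H47.CH.Loc

/-!
# Chou's property P: normal systems with locally finite-by-polycyclic factors
-/

set_option autoImplicit false

namespace Pool.Agent.Results.MP_51c6d3_al.NormalSystems

open Set

/-- The finite set `F` lies in a finite `S` for which there is `X` with the left translates `x S`
pairwise disjoint and the right translates `S x` covering the group. -/
def HasTile {G : Type*} [Group G] (F : Set G) : Prop :=
  ∃ S : Set G, S.Finite ∧ F ⊆ S ∧ ∃ X : Set G,
    (∀ x₁ ∈ X, ∀ x₂ ∈ X, x₁ ≠ x₂ →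
      Disjoint ((fun s => x₁ * s) '' S) ((fun s => x₂ * s) '' S)) ∧
    (⋃ x ∈ X, (fun s => s * x) '' S) = univ

/-- Property `P` of the problem. -/
def HasP (G : Type*) [Group G] : Prop := ∀ F : Set G, F.Finite → HasTile F

/-- Every subgroup of `K` is finitely generated and `K` has a finite normal subgroup with solvable
quotient; that is, `K` is finite-by-polycyclic. -/
def FinByPolycyclic (K : Type*) [Group K] : Prop :=
  (∀ L : Subgroup K, L.FG) ∧ ∃ (T : Subgroup K) (_ : T.Normal), Finite T ∧ Group.IsSolvable (K ⧸ T)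

/-- The subgroup generated by the conjugates `k e k⁻¹`, `k ∈ K`. -/
def conjClosure {G : Type*} [Group G] (K : Subgroup G) (e : G) : Subgroup G :=
  Subgroup.closure {x | ∃ k ∈ K, x = k * e * k⁻¹}

/-- `N / M` is locally `G`-(finite-by-polycyclic): for every finitely generated subgroup `K` of `G`
and every `e` in `N ∩ K` the image in `G / M` of the group generated by the `K`-conjugates of `e` is
finite-by-polycyclic. -/
def LocallyFinByPolycyclic {G : Type*} [Group G] (M : Subgroup G) [M.Normal] (N : Subgroup G) : Prop :=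
  ∀ K : Subgroup G, K.FG → ∀ e ∈ N, e ∈ K → FinByPolycyclic ((conjClosure K e).map (QuotientGroup.mk' M))

/-- Suppose that for every finite `F ⊆ G` there are a chain `C` of normal subgroups of `G` and `N₀`
in `C`, such that `G / N₀` has property `P` or the image of `F` in `G / N₀` lies in a finite
subgroup, and such that for all different `f, f'` in `F` with `f⁻¹ f'` in `N₀` there are `M, N` in
`C` with `f⁻¹ f'` in `N` and not in `M` for which `N / M` is locally `G`-(finite-by-polycyclic).
Then `G` has property `P`. -/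
theorem result (G : Type*) [Group G]
    (h : ∀ F : Set G, F.Finite → ∃ (C : Set (Subgroup G)) (N₀ : Subgroup G) (_ : N₀.Normal),
      (∀ c ∈ C, c.Normal) ∧ IsChain (· ≤ ·) C ∧ N₀ ∈ C ∧
      (HasP (G ⧸ N₀) ∨ ∃ H : Subgroup (G ⧸ N₀), (H : Set (G ⧸ N₀)).Finite ∧
        (fun g : G => (g : G ⧸ N₀)) '' F ⊆ H) ∧
      ∀ f ∈ F, ∀ f' ∈ F, f ≠ f' → f⁻¹ * f' ∈ N₀ →
        ∃ (M N : Subgroup G) (_ : M.Normal), M ∈ C ∧ N ∈ C ∧ f⁻¹ * f' ∈ N ∧ f⁻¹ * f' ∉ M ∧
          LocallyFinByPolycyclic M N) :
    HasP G :=
  Pool.Agent.H47.CH.hasP_sys h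

end Pool.Agent.Results.MP_51c6d3_al.NormalSystems
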