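import Mathlib
import Pool.Agent.H25.WP.Main
import Pool.Agent.H25.GP.Pc

/-!
# Chou's property P: a class of groups closed under graph products and wreath products
-/

set_option autoImplicit false

namespace Pool.Agent.Results.MP_51c6d3_al.WreathProducts

open Set

universe u

/-- The finite set `F` lies in a finite `S` for which there is `X` with the left translates `x S`
pairwise disjoint and the right translates `S x` covering the group. -/
def HasTile {G : Type*} [Group G] (F : Set G) : Prop :=
  ∃ S : Set G, S.Finite ∧ F ⊆ S ∧ ∃ X : Set G,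
    (∀ x₁ ∈ X, ∀ x₂ ∈ X, x₁ ≠ x₂ →
      Disjoint ((fun s => x₁ * s) '' S) ((fun s => x₂ * s) '' S)) ∧
    (⋃ x ∈ X, (fun s => s * x) '' S) = univ

/-- Property `P` of the problem. -/
def HasP (G : Type*) [Group G] : Prop := ∀ F : Set G, F.Finite → HasTile F

/-- Every subgroup of `K` is finitely generated and `K` has a finite normal subgroup with solvable
quotient; that is, `K` is finite-by-polycyclic. -/
def FinByPolycyclic (K : Type*) [Group K] : Prop :=
  (∀ L : Subgroup K, L.FG) ∧ ∃ (T : Subgroup K) (_ : T.Normal), Finite T ∧ Group.IsSolvable (K ⧸ T)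

/-- The subgroup generated by the conjugates `k e k⁻¹`, `k ∈ K`. -/
def conjClosure {G : Type*} [Group G] (K : Subgroup G) (e : G) : Subgroup G :=
  Subgroup.closure {x | ∃ k ∈ K, x = k * e * k⁻¹}

/-- `N / M` is locally `G`-(finite-by-polycyclic): for every finitely generated subgroup `K` of `G`
and every `e` in `N ∩ K` the image in `G / M` of the group generated by the `K`-conjugates of `e` is
finite-by-polycyclic. -/
def LocallyFinByPolycyclic {G : Type*} [Group G] (M : Subgroup G) [M.Normal] (N : Subgroup G) : Prop :=
  ∀ K : Subgroup G, K.FG → ∀ e ∈ N, e ∈ K → FinByPolycyclic ((conjClosure K e).map (QuotientGroup.mk' M))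

/-- For every finite subset `F` of the `H`-set `Y` there is an equivariant map from `Y` to a finite
`H`-set that is injective on `F`. -/
def ResiduallyFiniteAction (H Y : Type u) [Group H] [MulAction H Y] : Prop :=
  ∀ F : Finset Y, ∃ (Q : Type u) (_ : MulAction H Q) (_ : Finite Q) (p : Y → Q),
    (∀ (h : H) (y : Y), p (h • y) = h • p y) ∧ InjOn p F

/-- The restricted wreath product of `A` and the group `H` acting on `Y`: the elements `(n, h)` of
the semidirect product of the group of all maps `n : Y → A` by `H` (which permutes the coordinates)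
for which `n y ≠ 1` for finitely many `y` only. -/
def RestrictedWreath (A H Y : Type u) [Group A] [Group H] [MulAction H Y] :
    Subgroup ((Y → A) ⋊[mulAutArrow] H) where
  carrier := {g | (Function.mulSupport g.left).Finite}
  mul_mem' := (Pool.Agent.H25.WP.Wr A H Y).mul_mem'
  one_mem' := (Pool.Agent.H25.WP.Wr A H Y).one_mem'
  inv_mem' := (Pool.Agent.H25.WP.Wr A H Y).inv_mem'

/-- The graph product of the groups `G v` over the graph `Γ`: the free product of all `G v` modulo the
commutators of the elements of `G v` and `G w` for adjacent vertices `v` and `w`. -/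
abbrev GraphProduct {V : Type} (Γ : SimpleGraph V) (G : V → Type u) [∀ v, Group (G v)] : Type u :=
  Monoid.CoprodI G ⧸ Subgroup.normalClosure {r : Monoid.CoprodI G | ∃ (v w : V) (g : G v) (h : G w),
    Γ.Adj v w ∧ r = Monoid.CoprodI.of g * Monoid.CoprodI.of h * (Monoid.CoprodI.of g)⁻¹ *
      (Monoid.CoprodI.of h)⁻¹}

/-- The smallest class of groups which is closed under isomorphism, direct products `A × B`, free products
`A ∗ B` (`Monoid.Coprod A B`), graph products over finite graphs, restricted wreath products of `A` and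
`H` acting on `Y` (either `Y` is a group `Q` in the class on which `H` acts by left multiplication
through a homomorphism `π : H → Q`, for instance `Q = H`, `π = id`; or the action of `H` on `Y` is
residually finite), and normal systems: `G` is in the class if for every finite
`F ⊆ G` there are a chain `C F` of normal subgroups of `G` and `N₀ F` in `C F` such that `G / N₀ F` is
in the class or the image of `F` in `G / N₀ F` lies in a finite subgroup, and such that for all
different `x, y` in `F` with `x⁻¹ y` in `N₀ F` there are `M, N` in `C F` with `x⁻¹ y` in `N` and not in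
`M` for which `N / M` is locally `G`-(finite-by-polycyclic). -/
inductive WreathClass : (G : Type u) → [Group G] → Prop
  | iso (G G' : Type u) [Group G] [Group G'] (e : G ≃* G') (h : WreathClass G) : WreathClass G'
  | prod (A B : Type u) [Group A] [Group B] (hA : WreathClass A) (hB : WreathClass B) :
      WreathClass (A × B)
  | free (A B : Type u) [Group A] [Group B] (hA : WreathClass A) (hB : WreathClass B) :
      WreathClass (Monoid.Coprod A B)
  | graph (V : Type) [Finite V] (Γ : SimpleGraph V) (G : V → Type u) [∀ v, Group (G v)]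
      (h : ∀ v, WreathClass (G v)) : WreathClass (GraphProduct Γ G)
  | wreath (A H Q : Type u) [Group A] [Group H] [Group Q] (π : H →* Q) (hA : WreathClass A)
      (hH : WreathClass H) (hQ : WreathClass Q) :
      WreathClass (@RestrictedWreath A H Q _ _ (MulAction.compHom Q π))
  | permWreath (A H Y : Type u) [Group A] [Group H] [MulAction H Y]
      (hY : ResiduallyFiniteAction H Y) (hA : WreathClass A) (hH : WreathClass H) :
      WreathClass (RestrictedWreath A H Y)
  | systems (G : Type u) [Group G] (C : Finset G → Set (Subgroup G)) (N₀ : Finset G → Subgroup G)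
      [∀ F, (N₀ F).Normal] (hC : ∀ F, (∀ c ∈ C F, c.Normal) ∧ IsChain (· ≤ ·) (C F) ∧ N₀ F ∈ C F)
      (hQ : ∀ F : Finset G, (¬ ∃ U : Subgroup (G ⧸ N₀ F), Finite U ∧
        ∀ f ∈ F, (f : G ⧸ N₀ F) ∈ U) → WreathClass (G ⧸ N₀ F))
      (hs : ∀ F : Finset G, ∀ x ∈ F, ∀ y ∈ F, x ≠ y → x⁻¹ * y ∈ N₀ F →
        ∃ (M N : Subgroup G) (_ : M.Normal), M ∈ C F ∧ N ∈ C F ∧ x⁻¹ * y ∈ N ∧ x⁻¹ * y ∉ M ∧
          LocallyFinByPolycyclic M N) : WreathClass G

/-- Every group in the class `WreathClass` has property `P`. -/
theorem result (G : Type u) [Group G] (h : WreathClass G) : HasP G := by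
  refine Pool.Agent.H25.WP.hasP_of_pc ?_
  induction h with
  | iso G G' e _ ih => exact Pool.Agent.H25.WP.iso_pc e ih
  | prod A B _ _ iA iB => exact Pool.Agent.H25.WP.prod_pc iA iB
  | free A B _ _ iA iB => exact Pool.Agent.H25.FP.coprod_pc iA iB
  | graph V Γ G _ ih => exact Pool.Agent.H25.GP.gp_pc Γ G ih
  | wreath A H Q π _ _ _ iA iH iQ =>
    let act : MulAction H Q := MulAction.compHom Q π
    exact Pool.Agent.H25.WP.wr_pc iA iH (Pool.Agent.H25.WP.win_hom iQ π)
  | permWreath A H Y hY _ _ iA iH =>
    exact Pool.Agent.H25.WP.wr_pc iA iH (Pool.Agent.H25.WP.win_res hY)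
  | systems G C N₀ hC _ hs iQ =>
    refine Pool.Agent.H25.WP.sys_pc (fun F => ⟨C F, N₀ F, inferInstance, (hC F).1, (hC F).2.1,
      (hC F).2.2, ?_, hs F⟩)
    by_cases hU : ∃ U : Subgroup (G ⧸ N₀ F), Finite U ∧ ∀ f ∈ F, (f : G ⧸ N₀ F) ∈ U
    · exact Or.inr hU
    · exact Or.inl (iQ F hU)

end Pool.Agent.Results.MP_51c6d3_al.WreathProducts
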